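import Mathlib

set_option autoImplicit false

namespace Pool.Agent.H403Z.CrossTS

open Finset

/-- The number of subsets of `Fin n` with at most `k` elements. -/
theorem card_small (n k : ℕ) (hn : 1 ≤ n) :
    (univ.filter fun X : Finset (Fin n) => X.card ≤ k).card ≤ (k + 1) * n ^ k := by
  classical
  have h : (univ.filter fun X : Finset (Fin n) => X.card ≤ k) ⊆
      (range (k + 1)).biUnion fun i => powersetCard i (univ : Finset (Fin n)) := by
    intro X hX
    simp only [mem_filter, mem_univ, true_and] at hX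
    simp only [mem_biUnion, mem_range, mem_powersetCard]
    exact ⟨X.card, by omega, subset_univ _, rfl⟩
  refine (card_le_card h).trans (card_biUnion_le.trans ?_)
  calc ∑ i ∈ range (k + 1), (powersetCard i (univ : Finset (Fin n))).card
      ≤ ∑ _i ∈ range (k + 1), n ^ k := by
        refine sum_le_sum fun i hi => ?_
        rw [card_powersetCard, card_univ, Fintype.card_fin]
        exact (Nat.choose_le_pow n i).trans
          (Nat.pow_le_pow_right hn (by have := mem_range.1 hi; omega))
    _ = (k + 1) * n ^ k := by simp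

/-- Upper bound for a family whose unions have at most `t + 2 k + 1` elements and whose
intersections have at least `t` elements. -/
theorem upper (n t k : ℕ) (hn : 1 ≤ n) (H : Finset (Finset (Fin n)))
    (hH : ∀ A ∈ H, ∀ B ∈ H, t ≤ (A ∩ B).card ∧ (A ∪ B).card ≤ t + 2 * k + 1) :
    H.card ≤ (t + 2 * k + 2) * (2 ^ (t + 2 * k + 1) * ((k + 1) * n ^ k)) := by
  classical
  have hsz : ∀ A ∈ H, A.card ≤ t + 2 * k + 1 := fun A hA => by
    simpa using (hH A hA A hA).2
  have hslice : ∀ j, (H.filter fun B => B.card = j).card ≤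
      2 ^ (t + 2 * k + 1) * ((k + 1) * n ^ k) := by
    intro j
    rcases (H.filter fun B => B.card = j).eq_empty_or_nonempty with h | ⟨A, hA⟩
    · rw [h]; simp
    · obtain ⟨hAH, hAj⟩ := mem_filter.1 hA
      have hinj : (H.filter fun B => B.card = j).card ≤
          (A.powerset ×ˢ (univ.filter fun X : Finset (Fin n) => X.card ≤ k)).card := by
        refine card_le_card_of_injOn (fun B => (B ∩ A, B \ A)) ?_ ?_
        · intro B hB
          obtain ⟨hBH, hBj⟩ := mem_filter.1 (mem_coe.1 hB)
          obtain ⟨h1, h2⟩ := hH B hBH A hAH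
          have e1 := card_sdiff_add_card_inter B A
          have e2 := card_union_add_card_inter B A
          simp only [coe_product, Set.mem_prod, mem_coe, mem_powerset, mem_filter, mem_univ,
            true_and]
          exact ⟨inter_subset_right, by omega⟩
        · intro B _ C _ h
          simp only [Prod.mk.injEq] at h
          rw [← sdiff_union_inter B A, ← sdiff_union_inter C A, h.1, h.2]
      refine hinj.trans ?_
      rw [card_product, card_powerset]
      exact Nat.mul_le_mul (Nat.pow_le_pow_right (by norm_num) (hsz A hAH)) (card_small n k hn)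
  have hcov : H ⊆ (range (t + 2 * k + 2)).biUnion fun j => H.filter fun B => B.card = j := by
    intro B hB
    simp only [mem_biUnion, mem_range, mem_filter]
    exact ⟨B.card, by have := hsz B hB; omega, hB, rfl⟩
  refine (card_le_card hcov).trans (card_biUnion_le.trans ?_)
  refine (sum_le_sum fun j _ => hslice j).trans ?_
  simp

/-- The family of the sets `A ∪ X` with `X` an `i`-element set disjoint from `A`. -/
def star {n : ℕ} (A : Finset (Fin n)) (i : ℕ) : Finset (Finset (Fin n)) :=
  (powersetCard i Aᶜ).image fun X => A ∪ X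

theorem card_star {n : ℕ} (A : Finset (Fin n)) (i : ℕ) :
    (star A i).card = (n - A.card).choose i := by
  rw [star, card_image_of_injOn, card_powersetCard, card_compl, Fintype.card_fin]
  intro X hX Y hY h
  have hX' := (mem_powersetCard.1 (mem_coe.1 hX)).1
  have hY' := (mem_powersetCard.1 (mem_coe.1 hY)).1
  ext x
  have h1 : x ∈ A ∪ X ↔ x ∈ A ∪ Y := by
    have h' : A ∪ X = A ∪ Y := h
    rw [h']
  simp only [mem_union] at h1
  constructor
  · intro hx
    have := mem_compl.1 (hX' hx)
    tauto
  · intro hx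
    have := mem_compl.1 (hY' hx)
    tauto

theorem star_cross {n : ℕ} (A : Finset (Fin n)) (i j : ℕ) :
    ∀ B ∈ star A i, ∀ C ∈ star A j, A.card ≤ (B ∩ C).card ∧ (B ∪ C).card ≤ A.card + i + j := by
  intro B hB C hC
  obtain ⟨X, hX, rfl⟩ := mem_image.1 hB
  obtain ⟨Y, hY, rfl⟩ := mem_image.1 hC
  have hx := (mem_powersetCard.1 hX).2
  have hy := (mem_powersetCard.1 hY).2
  refine ⟨card_le_card (subset_inter subset_union_left subset_union_left), ?_⟩
  have : A ∪ X ∪ (A ∪ Y) = A ∪ X ∪ Y := by
    ext x; simp only [mem_union]; tauto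
  rw [this]
  have h1 := card_union_le (A ∪ X) Y
  have h2 := card_union_le A X
  omega

theorem pow_le_fact_mul_choose (N s i : ℕ) (h : s + i ≤ N + 1) :
    s ^ i ≤ i.factorial * N.choose i := by
  rw [← Nat.descFactorial_eq_factorial_mul_choose]
  exact (Nat.pow_le_pow_left (by omega) i).trans (Nat.pow_sub_le_descFactorial N i)

theorem numeric (t k : ℕ) : ∃ s₀ : ℕ, ∀ s, s₀ ≤ s →
    ((t + 2 * k + 2) * (2 ^ (t + 2 * k + 1) * ((k + 1) * (t + s + 2 * k + 1) ^ k))) ^ 2 <
      (s + 2 * k + 1).choose k * (s + 2 * k + 1).choose (k + 1) := by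
  set c := (t + 2 * k + 2) * (2 ^ (t + 2 * k + 1) * ((k + 1) * 2 ^ k)) with hc
  refine ⟨c ^ 2 * (k.factorial * (k + 1).factorial) + (t + 2 * k + 2), fun s hs => ?_⟩
  have hs1 : t + 2 * k + 2 ≤ s := le_trans (Nat.le_add_left _ _) hs
  have hs2 : c ^ 2 * (k.factorial * (k + 1).factorial) < s := by omega
  have h1 := pow_le_fact_mul_choose (s + 2 * k + 1) s k (by omega)
  have h2 := pow_le_fact_mul_choose (s + 2 * k + 1) s (k + 1) (by omega)
  have h3 : (t + s + 2 * k + 1) ^ k ≤ 2 ^ k * s ^ k := by
    rw [← mul_pow]; exact Nat.pow_le_pow_left (by omega) k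
  have h4 : (t + 2 * k + 2) * (2 ^ (t + 2 * k + 1) * ((k + 1) * (t + s + 2 * k + 1) ^ k)) ≤
      c * s ^ k := by
    calc _ ≤ (t + 2 * k + 2) * (2 ^ (t + 2 * k + 1) * ((k + 1) * (2 ^ k * s ^ k))) := by gcongr
      _ = c * s ^ k := by rw [hc]; ring
  have hpos : 0 < s ^ k := pow_pos (by omega) k
  refine lt_of_le_of_lt (Nat.pow_le_pow_left h4 2) ?_
  refine lt_of_mul_lt_mul_left (a := k.factorial * (k + 1).factorial) ?_ (Nat.zero_le _)
  calc k.factorial * (k + 1).factorial * (c * s ^ k) ^ 2
      = (c ^ 2 * (k.factorial * (k + 1).factorial)) * (s ^ k * s ^ k) := by ring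
    _ < s * (s ^ k * s ^ k) := Nat.mul_lt_mul_of_pos_right hs2 (Nat.mul_pos hpos hpos)
    _ = s ^ k * s ^ (k + 1) := by ring
    _ ≤ (k.factorial * (s + 2 * k + 1).choose k) *
        ((k + 1).factorial * (s + 2 * k + 1).choose (k + 1)) := Nat.mul_le_mul h1 h2
    _ = _ := by ring

end Pool.Agent.H403Z.CrossTS
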