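import Mathlib

set_option autoImplicit false

namespace Pool.Agent.H403Z.TriFree

open Cardinal

variable {X : Type}

/-- `f` is good for `c` on `S`: no two distinct points of `S` have `f x = f z = c x z`. -/
def GoodOn (c : X → X → ℕ) (S : Set X) (f : X → ℕ) : Prop :=
  ∀ x ∈ S, ∀ z ∈ S, x ≠ z → ¬ (f x = f z ∧ f z = c x z)

/-- Compactness: if every finite set has a good function with values at most `k`, so has `X`. -/
theorem good_of_finite (c : X → X → ℕ) (k : ℕ)
    (h : ∀ s : Finset X, ∃ f : X → ℕ, (∀ x ∈ s, f x ≤ k) ∧ GoodOn c s f) :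
    ∃ f : X → ℕ, GoodOn c Set.univ f := by
  classical
  choose F hF1 hF2 using h
  let g : Finset X → X → Fin (k + 1) := fun s x =>
    if hx : x ∈ s then ⟨F s x, Nat.lt_succ_of_le (hF1 s x hx)⟩ else 0
  obtain ⟨χ, hχ⟩ := Finset.rado_selection (β := fun _ : X => Fin (k + 1)) g
  refine ⟨fun x => (χ x : ℕ), ?_⟩
  intro x _ z _ hxz hbad
  obtain ⟨t, hst, ht⟩ := hχ {x, z}
  have hx : x ∈ t := hst (by simp)
  have hz : z ∈ t := hst (by simp)
  have e1 : (χ x : ℕ) = F t x := by rw [ht x (by simp)]; simp [g, hx]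
  have e2 : (χ z : ℕ) = F t z := by rw [ht z (by simp)]; simp [g, hz]
  simp only [e1, e2] at hbad
  exact hF2 t x hx z hz hxz hbad

/-- Either there is a good function, or there is a countable set on which the colours seen from
any point outside the set are unbounded. -/
theorem exists_countable (c : X → X → ℕ)
    (htri : ∀ x y z, x ≠ y → y ≠ z → x ≠ z → ¬ (c x y = c x z ∧ c x z = c y z))
    (hno : ¬ ∃ f : X → ℕ, GoodOn c Set.univ f) :
    ∃ D : Set X, D.Countable ∧ ∀ x ∉ D, ∀ k : ℕ, ∃ y ∈ D, k < c x y := by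
  classical
  have h : ∀ k : ℕ, ∃ s : Finset X, ∀ f : X → ℕ, (∀ x ∈ s, f x ≤ k) → ¬ GoodOn c s f := by
    intro k
    by_contra hcon
    push Not at hcon
    exact hno (good_of_finite c k hcon)
  choose s hs using h
  refine ⟨⋃ k, (s k : Set X), Set.countable_iUnion fun k => (s k).countable_toSet, ?_⟩
  intro x hx k
  by_contra hcon
  push Not at hcon
  refine hs k (fun y => c x y) (fun y hy => hcon y (Set.mem_iUnion.2 ⟨k, hy⟩)) ?_
  intro y hy z hz hyz hbad
  have hxy : x ≠ y := fun e => hx (e ▸ Set.mem_iUnion.2 ⟨k, hy⟩)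
  have hxz : x ≠ z := fun e => hx (e ▸ Set.mem_iUnion.2 ⟨k, hz⟩)
  exact htri x y z hxy hyz hxz hbad

/-- The main step: if `ℵ₁` dense subsets of the tree of finite sequences of natural numbers can
always be met by a set of pairwise compatible sequences, then every triangle-free colouring of the
pairs of a set of size at most `ℵ₁` has a good function. -/
theorem exists_good (hX : #X ≤ ℵ₁)
    (hMA : ∀ 𝒟 : Set (Set (List ℕ)), #𝒟 ≤ ℵ₁ → (∀ D ∈ 𝒟, ∀ p, ∃ q ∈ D, p <+: q) →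
      ∃ G : Set (List ℕ), (∀ p ∈ G, ∀ q ∈ G, ∃ r, p <+: r ∧ q <+: r) ∧
        ∀ D ∈ 𝒟, (G ∩ D).Nonempty)
    (c : X → X → ℕ) (hsymm : ∀ x y, c x y = c y x)
    (htri : ∀ x y z, x ≠ y → y ≠ z → x ≠ z → ¬ (c x y = c x z ∧ c x z = c y z)) :
    ∃ f : X → ℕ, GoodOn c Set.univ f := by
  classical
  by_contra hno
  obtain ⟨D, hDc, hD⟩ := exists_countable c htri hno
  obtain ⟨idx, hidx⟩ := Set.countable_iff_exists_injOn.1 hDc
  let U : X → Set (List ℕ) := fun x =>
    {p | x ∈ D ∨ ∃ y ∈ D, p[c x y]? = some (idx y + 1)}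
  let V : ℕ → Set (List ℕ) := fun m => {p | ∃ n, m ≤ n ∧ p[n]? = some 0}
  have hcard : #(↥(Set.range U ∪ Set.range V)) ≤ ℵ₁ := by
    refine (Cardinal.mk_union_le _ _).trans ?_
    have h1 : #(Set.range U) ≤ ℵ₁ := Cardinal.mk_range_le.trans hX
    have h2 : #(Set.range V) ≤ ℵ₁ :=
      Cardinal.mk_range_le.trans (by simp)
    exact Cardinal.add_le_of_le (Cardinal.aleph0_le_aleph 1) h1 h2
  have hdense : ∀ E ∈ Set.range U ∪ Set.range V, ∀ p, ∃ q ∈ E, p <+: q := by
    rintro E (⟨x, rfl⟩ | ⟨m, rfl⟩) p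
    · by_cases hx : x ∈ D
      · exact ⟨p, Or.inl hx, List.prefix_rfl⟩
      · obtain ⟨y, hy, hlt⟩ := hD x hx p.length
        refine ⟨p ++ List.replicate (c x y + 1) (idx y + 1), Or.inr ⟨y, hy, ?_⟩,
          List.prefix_append _ _⟩
        rw [List.getElem?_append_right hlt.le, List.getElem?_replicate, if_pos (by omega)]
    · refine ⟨p ++ List.replicate (m + 1) 0, ⟨p.length + m, by omega, ?_⟩,
        List.prefix_append _ _⟩
      rw [List.getElem?_append_right (by omega), List.getElem?_replicate, if_pos (by omega)]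
  obtain ⟨G, hG, hGD⟩ := hMA _ hcard hdense
  have hfun : ∀ p ∈ G, ∀ q ∈ G, ∀ n a b : ℕ, p[n]? = some a → q[n]? = some b → a = b := by
    intro p hp q hq n a b ha hb
    obtain ⟨r, ⟨s, hs⟩, ⟨t, ht⟩⟩ := hG p hp q hq
    have h1 : r[n]? = some a := by
      rw [← hs, List.getElem?_append_left (List.getElem?_eq_some_iff.1 ha).1, ha]
    have h2 : r[n]? = some b := by
      rw [← ht, List.getElem?_append_left (List.getElem?_eq_some_iff.1 hb).1, hb]
    exact Option.some.inj (h1.symm.trans h2)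
  let J : Set ℕ := {n | ∃ p ∈ G, p[n]? = some 0}
  have hJ : J.Infinite := by
    refine Set.infinite_of_forall_exists_gt fun m => ?_
    obtain ⟨p, hp, n, hn, hpn⟩ := hGD (V (m + 1)) (Or.inr ⟨m + 1, rfl⟩)
    exact ⟨n, ⟨p, hp, hpn⟩, by omega⟩
  have hout : ∀ x, x ∉ D → ∃ y ∈ D, ∃ p ∈ G, p[c x y]? = some (idx y + 1) := by
    intro x hx
    obtain ⟨p, hp, h | ⟨y, hy, h⟩⟩ := hGD (U x) (Or.inl ⟨x, rfl⟩)
    · exact absurd h hx
    · exact ⟨y, hy, p, hp, h⟩
  choose! w hwD hw using hout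
  let e : ℕ ↪ J := hJ.natEmbedding J
  refine hno ⟨fun x => if x ∈ D then (e (idx x) : ℕ) else c x (w x), ?_⟩
  intro x _ z _ hxz hbad
  by_cases hx : x ∈ D <;> by_cases hz : z ∈ D <;>
    simp only [hx, hz, if_true, if_false] at hbad
  · exact hxz (hidx hx hz (e.injective (Subtype.ext hbad.1)))
  · obtain ⟨p, hp, h0⟩ := (e (idx x)).2
    obtain ⟨q, hq, h1⟩ := hw z hz
    rw [hbad.1] at h0
    have := hfun p hp q hq _ _ _ h0 h1
    omega
  · obtain ⟨p, hp, h0⟩ := (e (idx z)).2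
    obtain ⟨q, hq, h1⟩ := hw x hx
    rw [← hbad.1] at h0
    have := hfun p hp q hq _ _ _ h0 h1
    omega
  · obtain ⟨p, hp, h0⟩ := hw x hx
    obtain ⟨q, hq, h1⟩ := hw z hz
    rw [hbad.1] at h0
    have h2 := hfun p hp q hq _ _ _ h0 h1
    have h3 : w x = w z := hidx (hwD x hx) (hwD z hz) (by omega)
    have h4 : w x ≠ x := fun e => hx (e ▸ hwD x hx)
    have h5 : w x ≠ z := fun e => hz (e ▸ hwD x hx)
    refine htri (w x) x z h4 hxz h5 ⟨?_, ?_⟩
    · rw [hsymm (w x) x, hsymm (w x) z, hbad.1, h3]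
    · rw [hsymm (w x) z, h3, hbad.2]

end Pool.Agent.H403Z.TriFree
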